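import Mathlib

/-!
The upper `k`-domination number `Γ_k` is not monotone in `k`: for every `N` there is a finite
graph `G` with `Γ_4(G) + N ≤ Γ_3(G)`.
-/

namespace Pool.Agent.Results.MP_92077f_co.Drop

open Finset

section defs

variable {V : Type} [Fintype V] (G : SimpleGraph V)

open Classical in
/-- `g(N[v])`: the sum of `g` over the closed neighbourhood of `v`. -/
noncomputable def nsum (g : V → ℕ) (v : V) : ℕ :=
  ∑ u ∈ univ.filter (fun u => u = v ∨ G.Adj v u), g u

/-- `g` is a `k`-dominating function `V → {0, …, k}`. -/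
def IsKDom (k : ℕ) (g : V → ℕ) : Prop := (∀ v, g v ≤ k) ∧ ∀ v, k ≤ nsum G g v

/-- `g` is a minimal `k`-dominating function. -/
def IsMinKDom (k : ℕ) (g : V → ℕ) : Prop :=
  IsKDom G k g ∧ ∀ v, 0 < g v → ∃ u, (u = v ∨ G.Adj v u) ∧ nsum G g u = k

/-- The upper `k`-domination number `Γ_k(G)`. -/
noncomputable def upperK (k : ℕ) : ℕ := sSup {w | ∃ g, IsMinKDom G k g ∧ ∑ v, g v = w}

end defs

section general

variable {V : Type} [Fintype V] (G : SimpleGraph V)

lemma bdd (k : ℕ) : BddAbove {w | ∃ g, IsMinKDom G k g ∧ ∑ v, g v = w} := by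
  refine ⟨∑ _v : V, k, ?_⟩
  rintro w ⟨g, hg, rfl⟩
  exact Finset.sum_le_sum (fun v _ => hg.1.1 v)

lemma le_upperK (k : ℕ) (g : V → ℕ) (hg : IsMinKDom G k g) : ∑ v, g v ≤ upperK G k :=
  le_csSup (bdd G k) ⟨g, hg, rfl⟩

lemma upperK_le (k B : ℕ) (h : ∀ g, IsMinKDom G k g → ∑ v, g v ≤ B) : upperK G k ≤ B := by
  unfold upperK
  rcases Set.eq_empty_or_nonempty {w | ∃ g, IsMinKDom G k g ∧ ∑ v, g v = w} with he | hne
  · rw [he]; simp
  · apply csSup_le hne
    rintro w ⟨g, hg, rfl⟩
    exact h g hg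

end general

/-- The incidence of the ten pairs (first argument) with the five points. -/
def m (r : Fin 10) (i : Fin 5) : Bool :=
  match r.val with
  | 0 => i = 0 ∨ i = 1
  | 1 => i = 0 ∨ i = 2
  | 2 => i = 0 ∨ i = 3
  | 3 => i = 0 ∨ i = 4
  | 4 => i = 1 ∨ i = 2
  | 5 => i = 1 ∨ i = 3
  | 6 => i = 1 ∨ i = 4
  | 7 => i = 2 ∨ i = 3
  | 8 => i = 2 ∨ i = 4
  | _ => i = 3 ∨ i = 4

/-- The vertex set: points `c i`, leaves `p r j`, a vertex `z`; then `y r j`, `t r`, and `w`. -/
abbrev Vx (s : ℕ) : Type :=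
  (Fin 5 ⊕ (Fin 10 × Fin s) ⊕ Unit) ⊕ ((Fin 10 × Fin s) ⊕ Fin 10 ⊕ Unit)

/-- Half of the adjacency relation. -/
def E {s : ℕ} : Vx s → Vx s → Bool
  | .inl _, .inl _ => true
  | .inl (.inl i), .inr (.inl q) => m q.1 i
  | .inl (.inl i), .inr (.inr (.inl r)) => !(m r i)
  | .inl (.inr (.inl q)), .inr (.inl q') => decide (q = q')
  | .inl (.inr _), .inr (.inr (.inr _)) => true
  | .inr (.inl _), .inr (.inl _) => true
  | .inr (.inl q), .inr (.inr (.inl r)) => !decide (q.1 = r)
  | .inr (.inl _), .inr (.inr (.inr _)) => true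
  | _, _ => false

/-- The graph. -/
def Gr (s : ℕ) : SimpleGraph (Vx s) where
  Adj u v := u ≠ v ∧ (E u v = true ∨ E v u = true)
  symm := ⟨fun _ _ h => ⟨h.1.symm, h.2.symm⟩⟩
  loopless := ⟨fun _ h => h.1 rfl⟩

section sums

variable {s : ℕ} (g : Vx s → ℕ)

abbrev C (i : Fin 5) : ℕ := g (.inl (.inl i))
abbrev P (q : Fin 10 × Fin s) : ℕ := g (.inl (.inr (.inl q)))
abbrev Z : ℕ := g (.inl (.inr (.inr ())))
abbrev Y (q : Fin 10 × Fin s) : ℕ := g (.inr (.inl q))
abbrev T (r : Fin 10) : ℕ := g (.inr (.inr (.inl r)))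
abbrev W : ℕ := g (.inr (.inr (.inr ())))

/-- total weight of the first clique -/
def A : ℕ := (∑ i, C g i) + (∑ q, P g q) + Z g
/-- total weight of the `y`'s -/
def B : ℕ := ∑ q, Y g q
/-- total weight of the `y`'s with first coordinate `r` -/
def Br (r : Fin 10) : ℕ := ∑ j, Y g (r, j)
def cR (r : Fin 10) : ℕ := ∑ i, if m r i then C g i else 0
def cT (r : Fin 10) : ℕ := ∑ i, if m r i then 0 else C g i
def Ts : ℕ := ∑ r, T g r

lemma nsum_eq (v : Vx s) : nsum (Gr s) g v =
    ∑ u, if (u = v ∨ (E v u = true ∨ E u v = true)) then g u else 0 := by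
  classical
  unfold nsum
  rw [Finset.sum_filter]
  apply Finset.sum_congr rfl
  intro u _
  by_cases h : u = v
  · simp [h]
  · have h' : v ≠ u := fun e => h e.symm
    simp [h, h', Gr]

lemma total : ∑ v, g v = A g + B g + Ts g + W g := by
  simp [Fintype.sum_sum_type, A, B, Ts]
  ring

lemma flip {ι : Type} [Fintype ι] (b : ι → Bool) (f : ι → ℕ) :
    (∑ x, if b x = false then f x else 0) = ∑ x, if b x = true then 0 else f x := by
  apply Finset.sum_congr rfl
  intro x _
  cases b x <;> simp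

lemma split_eq {ι : Type} [Fintype ι] [DecidableEq ι] (a : ι) (f : ι → ℕ) :
    (∑ x, if a = x then 0 else f x) + f a = ∑ x, f x := by
  have : ∑ x, f x = ∑ x, ((if a = x then 0 else f x) + (if a = x then f x else 0)) := by
    apply Finset.sum_congr rfl
    intro x _
    split_ifs <;> simp
  rw [this, Finset.sum_add_distrib]
  simp

lemma n_c (i : Fin 5) : nsum (Gr s) g (.inl (.inl i)) =
    A g + (∑ r, if m r i then Br g r else 0) + ∑ r, if m r i then 0 else T g r := by
  rw [nsum_eq]
  simp only [Fintype.sum_sum_type, E, A, Br]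
  have h1 : (∑ x : Fin 10, ∑ y : Fin s, if m x i = true then Y g (x, y) else 0) =
      ∑ x, if m x i = true then ∑ j, Y g (x, j) else 0 := by
    apply Finset.sum_congr rfl
    intro x _
    split_ifs <;> simp
  have h2 := flip (fun r => m r i) (fun r => T g r)
  simp [Fintype.sum_prod_type]
  simp only [C, P, Z, Y, T] at *
  rw [h1, ← h2]
  ring

lemma n_p (q : Fin 10 × Fin s) : nsum (Gr s) g (.inl (.inr (.inl q))) =
    A g + Y g q + W g := by
  rw [nsum_eq]
  simp [Fintype.sum_sum_type, E, A]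
  ring

lemma n_z : nsum (Gr s) g (.inl (.inr (.inr ()))) = A g + W g := by
  rw [nsum_eq]
  simp [Fintype.sum_sum_type, E, A]
  ring

lemma n_y (q : Fin 10 × Fin s) : nsum (Gr s) g (.inr (.inl q)) + T g q.1 =
    B g + W g + cR g q.1 + P g q + Ts g := by
  rw [nsum_eq]
  have h := split_eq q.1 (fun r => T g r)
  simp [Fintype.sum_sum_type, E, B, cR, Ts]
  simp only [C, P, Y, T, W] at *
  linarith

lemma n_w : nsum (Gr s) g (.inr (.inr (.inr ()))) =
    B g + W g + (∑ q, P g q) + Z g := by
  rw [nsum_eq]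
  simp [Fintype.sum_sum_type, E, B]
  ring

lemma n_t (r : Fin 10) : nsum (Gr s) g (.inr (.inr (.inl r))) + Br g r =
    T g r + cT g r + B g := by
  rw [nsum_eq]
  have h1 := flip (fun i => m r i) (fun i => C g i)
  have h2 : (∑ x : Fin 10 × Fin s, if x.1 = r then 0 else Y g x) + ∑ j, Y g (r, j) =
      ∑ q, Y g q := by
    have h3 := split_eq r (fun r' => ∑ j, Y g (r', j))
    rw [Fintype.sum_prod_type, Fintype.sum_prod_type, ← h3]
    congr 1
    apply Finset.sum_congr rfl
    intro x _
    by_cases h : r = x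
    · simp [h]
    · have h' : ¬ x = r := fun e => h e.symm
      simp [h, h']
  simp [Fintype.sum_sum_type, E, B, cT, Br]
  simp only [C, Y, T] at *
  linarith

end sums

/-- Sum of the values over the pair number `r`. -/
def rr (r c0 c1 c2 c3 c4 : ℕ) : ℕ :=
  match r with
  | 0 => c0 + c1
  | 1 => c0 + c2
  | 2 => c0 + c3
  | 3 => c0 + c4
  | 4 => c1 + c2
  | 5 => c1 + c3
  | 6 => c1 + c4
  | 7 => c2 + c3
  | 8 => c2 + c4
  | _ => c3 + c4

/-- The finite check behind the upper bound. -/
def chk (b c0 c1 c2 c3 c4 : ℕ) : Bool :=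
  !((List.range 10).all fun r => (4 - b).ble (c0 + c1 + c2 + c3 + c4 - rr r c0 c1 c2 c3 c4)) ||
  ((b == 1) && (List.range 10).all fun r =>
    (c0 + c1 + c2 + c3 + c4 - rr r c0 c1 c2 c3 c4).ble 3) ||
  (((List.range 10).map fun r => 4 - b - rr r c0 c1 c2 c3 c4).sum + b).ble 8

lemma chk_all : ∀ b : Fin 4, ∀ c0 c1 c2 c3 c4 : Fin 5,
    chk b.val c0.val c1.val c2.val c3.val c4.val = true := by
  decide +kernel

section upper

variable {s : ℕ} (g : Vx s → ℕ)

lemma cR_eq (r : Fin 10) : cR g r = rr r.val (C g 0) (C g 1) (C g 2) (C g 3) (C g 4) := by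
  fin_cases r <;> simp [cR, rr, Fin.sum_univ_five, m]

lemma cT_eq (r : Fin 10) : cT g r =
    C g 0 + C g 1 + C g 2 + C g 3 + C g 4 - rr r.val (C g 0) (C g 1) (C g 2) (C g 3) (C g 4) := by
  have h : cT g r + cR g r = C g 0 + C g 1 + C g 2 + C g 3 + C g 4 := by
    unfold cT cR
    rw [← Finset.sum_add_distrib, ← Fin.sum_univ_five (f := fun i => C g i)]
    apply Finset.sum_congr rfl
    intro i _
    split_ifs <;> simp
  rw [← cR_eq]
  omega

lemma key (hC : ∀ i, C g i ≤ 4) (b : ℕ) (hb : b ≤ 3) (h1 : ∀ r, 4 - b ≤ cT g r)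
    (h2 : b = 1 → ∃ r, 4 ≤ cT g r) : ∑ r, (4 - b - cR g r) + b ≤ 8 := by
  have hk := chk_all ⟨b, by omega⟩ ⟨C g 0, by have := hC 0; omega⟩ ⟨C g 1, by have := hC 1; omega⟩
    ⟨C g 2, by have := hC 2; omega⟩ ⟨C g 3, by have := hC 3; omega⟩
    ⟨C g 4, by have := hC 4; omega⟩
  simp only [chk, Bool.or_eq_true, Bool.not_eq_true', Bool.and_eq_true, Nat.ble_eq,
    List.all_eq_true, List.mem_range, List.all_eq_false, beq_iff_eq] at hk
  rcases hk with (⟨r, hr, hk⟩ | ⟨hb1, hk⟩) | hk
  · exfalso
    have := h1 ⟨r, hr⟩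
    rw [cT_eq] at this
    exact hk this
  · exfalso
    obtain ⟨r, hr⟩ := h2 hb1
    have := hk r.val r.isLt
    rw [cT_eq] at hr
    omega
  · have : ∑ r, (4 - b - cR g r) = ((List.range 10).map fun r =>
        4 - b - rr r (C g 0) (C g 1) (C g 2) (C g 3) (C g 4)).sum := by
      simp only [cR_eq]
      rw [Fin.sum_univ_eq_sum_range
        (fun r => 4 - b - rr r (C g 0) (C g 1) (C g 2) (C g 3) (C g 4)) 10]
      simp only [Finset.sum_range_succ, List.range_succ, List.map_append, List.sum_append,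
        Finset.sum_range_zero, List.range_zero, List.map_nil, List.sum_nil, List.map_cons,
        List.sum_cons, add_zero]
    rw [this]
    exact hk

/-- Every vertex of the first clique has neighbourhood sum at least `A`. -/
lemma inl_ge (u : Fin 5 ⊕ (Fin 10 × Fin s) ⊕ Unit) : A g ≤ nsum (Gr s) g (.inl u) := by
  rcases u with i | q | x
  · rw [n_c]; omega
  · rw [n_p]; omega
  · have := n_z g
    have hx : x = () := rfl
    rw [hx, this]; omega

lemma B_eq : B g = ∑ r, Br g r := by
  simp [B, Br, Fintype.sum_prod_type]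

lemma T_le_Ts (r : Fin 10) : T g r ≤ Ts g := by
  unfold Ts
  exact Finset.single_le_sum (f := fun r => T g r) (fun _ _ => Nat.zero_le _) (Finset.mem_univ r)

lemma Br_le_B (r : Fin 10) : Br g r ≤ B g := by
  rw [B_eq]
  exact Finset.single_le_sum (f := fun r => Br g r) (fun _ _ => Nat.zero_le _) (Finset.mem_univ r)

variable (hg : IsMinKDom (Gr s) 4 g)
include hg

lemma Br_bound (r : Fin 10) : Br g r ≤ 4 * s := by
  unfold Br
  calc ∑ j, Y g (r, j) ≤ ∑ _j : Fin s, 4 := Finset.sum_le_sum (fun j _ => hg.1.1 _)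
    _ = 4 * s := by simp [mul_comm]

lemma Ts_bound : Ts g ≤ 40 := by
  unfold Ts
  calc ∑ r, T g r ≤ ∑ _r : Fin 10, 4 := Finset.sum_le_sum (fun j _ => hg.1.1 _)
    _ = 40 := by simp

lemma C_bound : ∑ i, C g i ≤ 20 := by
  calc ∑ i, C g i ≤ ∑ _r : Fin 5, 4 := Finset.sum_le_sum (fun j _ => hg.1.1 _)
    _ = 20 := by simp

lemma AW : 4 ≤ A g + W g := by
  have := hg.1.2 (.inl (.inr (.inr ())))
  rwa [n_z] at this

lemma hT (r : Fin 10) : 4 + Br g r ≤ T g r + cT g r + B g := by
  have h1 := hg.1.2 (.inr (.inr (.inl r)))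
  have h2 := n_t g r
  omega

lemma B_bound : B g ≤ 4 * s + 40 := by
  by_contra hcon
  push Not at hcon
  have key : ∀ r, Br g r ≤ 4 := by
    intro r
    by_contra hr
    push Not at hr
    have hpos : ∃ j, 0 < Y g (r, j) := by
      by_contra hno
      push Not at hno
      have : Br g r = 0 := by
        unfold Br
        exact Finset.sum_eq_zero (fun j _ => Nat.le_zero.mp (hno j))
      omega
    obtain ⟨j, hj⟩ := hpos
    obtain ⟨u, hu, ht⟩ := hg.2 _ hj
    rcases u with (i | q | x) | (q | r' | x)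
    · have hm : m r i = true := by
        simpa [Gr, E] using hu
      rw [n_c] at ht
      have h1 : Br g r ≤ ∑ r', if m r' i then Br g r' else 0 := by
        have := Finset.single_le_sum (f := fun r' => if m r' i then Br g r' else 0)
          (fun _ _ => Nat.zero_le _) (Finset.mem_univ r)
        simpa [hm] using this
      omega
    · have hq : q = (r, j) := by
        simpa [Gr, E] using hu
      rw [n_p, hq] at ht
      have := AW g hg
      omega
    · simp [Gr, E] at hu
    · have h1 := n_y g q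
      have h2 := T_le_Ts g q.1
      omega
    · have h1 := n_t g r'
      have h2 := Br_bound g hg r'
      omega
    · have h1 := n_w g
      have hx : x = () := rfl
      rw [hx] at ht
      omega
  have : B g ≤ 40 := by
    rw [B_eq]
    calc ∑ r, Br g r ≤ ∑ _r : Fin 10, 4 := Finset.sum_le_sum (fun r _ => key r)
      _ = 40 := by simp
  omega

lemma total_le (hs : 20 ≤ s) : ∑ v, g v ≤ 8 * s + 27 := by
  rw [total]
  have hB := B_bound g hg
  have hTs := Ts_bound g hg
  have hCs := C_bound g hg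
  have hW : W g ≤ 4 := hg.1.1 _
  have hAW := AW g hg
  by_cases hA : A g ≤ 4
  · omega
  push Not at hA
  have hAeq : A g = (∑ i, C g i) + (∑ q, P g q) + Z g := rfl
  have hnw := n_w g
  by_cases hw : nsum (Gr s) g (.inr (.inr (.inr ()))) = 4
  · omega
  have hZ : Z g = 0 := by
    by_contra hz
    obtain ⟨u, hu, ht⟩ := hg.2 (.inl (.inr (.inr ()))) (Nat.pos_of_ne_zero hz)
    rcases u with u | (q | r' | x)
    · have := inl_ge g u
      omega
    · simp [Gr, E] at hu
    · simp [Gr, E] at hu
    · exact hw ht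
  have hP : ∀ q, 0 < P g q → B g + W g + cR g q.1 + P g q + Ts g = 4 + T g q.1 := by
    intro q hq
    obtain ⟨u, hu, ht⟩ := hg.2 _ hq
    rcases u with u | (q' | r' | x)
    · have := inl_ge g u
      omega
    · have hqq : q = q' := by
        simpa [Gr, E] using hu
      have h1 := n_y g q'
      rw [← hqq] at h1 ht
      omega
    · simp [Gr, E] at hu
    · exact absurd ht hw
  have hPs : ∀ q, P g q ≤ 4 + T g q.1 - (B g + W g + Ts g + cR g q.1) := by
    intro q
    rcases Nat.eq_zero_or_pos (P g q) with h0 | h0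
    · omega
    · have := hP q h0
      omega
  by_cases hb : 8 ≤ B g + W g + Ts g
  · have hP0 : ∑ q, P g q = 0 := by
      apply Finset.sum_eq_zero
      intro q _
      have h1 := hPs q
      have h2 : T g q.1 ≤ 4 := hg.1.1 _
      omega
    omega
  push Not at hb
  have hsumP : ∑ q, P g q ≤ s * ∑ r, (4 + T g r - (B g + W g + Ts g + cR g r)) := by
    rw [Fintype.sum_prod_type, Finset.mul_sum]
    apply Finset.sum_le_sum
    intro r _
    calc ∑ j, P g (r, j) ≤ ∑ _j : Fin s, (4 + T g r - (B g + W g + Ts g + cR g r)) :=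
          Finset.sum_le_sum (fun j _ => hPs (r, j))
      _ = s * (4 + T g r - (B g + W g + Ts g + cR g r)) := by simp
  have hl : ∑ r, (4 + T g r - (B g + W g + Ts g + cR g r)) ≤ 8 := by
    have h1 : ∑ r, (4 + T g r - (B g + W g + Ts g + cR g r)) ≤
        ∑ r, (4 - (B g + W g + Ts g) - cR g r) + Ts g := by
      unfold Ts
      rw [← Finset.sum_add_distrib]
      apply Finset.sum_le_sum
      intro r _
      omega
    by_cases hb3 : B g + W g + Ts g ≤ 3
    · have h2 := key g (fun i => hg.1.1 _) (B g + W g + Ts g) hb3 ?_ ?_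
      · omega
      · intro r
        have h3 := hT g hg r
        have h4 := T_le_Ts g r
        omega
      · intro hb1
        by_cases hB1 : B g = 1
        · have : ∃ r, 0 < Br g r := by
            by_contra hno
            push Not at hno
            have : B g = 0 := by
              rw [B_eq]
              exact Finset.sum_eq_zero (fun r _ => Nat.le_zero.mp (hno r))
            omega
          obtain ⟨r, hr⟩ := this
          have h3 := hT g hg r
          have h4 := T_le_Ts g r
          exact ⟨r, by omega⟩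
        · have hB0 : B g = 0 := by omega
          have h01 : T g 0 = 0 ∨ T g 1 = 0 := by
            have : T g 0 + T g 1 ≤ Ts g := by
              unfold Ts
              have := Finset.sum_le_sum_of_subset (f := fun r => T g r)
                (Finset.subset_univ ({0, 1} : Finset (Fin 10)))
              rwa [Finset.sum_pair (by decide)] at this
            omega
          rcases h01 with h0 | h0
          · have h3 := hT g hg 0
            exact ⟨0, by omega⟩
          · have h3 := hT g hg 1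
            exact ⟨1, by omega⟩
    · have : ∑ r, (4 - (B g + W g + Ts g) - cR g r) = 0 := by
        apply Finset.sum_eq_zero
        intro r _
        omega
      omega
  have hfin : s * ∑ r, (4 + T g r - (B g + W g + Ts g + cR g r)) ≤ s * 8 :=
    Nat.mul_le_mul_left s hl
  omega

end upper

/-- The minimal `3`-dominating function used for the lower bound. -/
def g3 {s : ℕ} : Vx s → ℕ
  | .inl (.inl _) => 1
  | .inl (.inr (.inl _)) => 1
  | _ => 0

lemma g3_total (s : ℕ) : ∑ v, (g3 : Vx s → ℕ) v = 10 * s + 5 := by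
  simp [Fintype.sum_sum_type, g3]
  ring

lemma g3_min (s : ℕ) (hs : 1 ≤ s) : IsMinKDom (Gr s) 3 (g3 : Vx s → ℕ) := by
  have hA : A (g3 : Vx s → ℕ) = 5 + 10 * s := by
    simp [A, g3]
  have hB : B (g3 : Vx s → ℕ) = 0 := by simp [B, g3]
  have hBr : ∀ r, Br (g3 : Vx s → ℕ) r = 0 := by intro r; simp [Br, g3]
  have hT0 : ∀ r, T (g3 : Vx s → ℕ) r = 0 := by intro r; simp [g3]
  have hTs : Ts (g3 : Vx s → ℕ) = 0 := by simp [Ts, g3]
  have hW : W (g3 : Vx s → ℕ) = 0 := by simp [g3]
  have hcR : ∀ r, cR (g3 : Vx s → ℕ) r = 2 := by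
    intro r
    have : ∀ r : Fin 10, (∑ i : Fin 5, if m r i = true then 1 else 0) = 2 := by decide
    simpa [cR, g3] using this r
  have hcT : ∀ r, cT (g3 : Vx s → ℕ) r = 3 := by
    intro r
    have : ∀ r : Fin 10, (∑ i : Fin 5, if m r i = true then 0 else 1) = 3 := by decide
    simpa [cT, g3] using this r
  have hP : ∀ q, P (g3 : Vx s → ℕ) q = 1 := by intro q; simp [g3]
  have hPs : ∑ q, P (g3 : Vx s → ℕ) q = 10 * s := by simp [g3]
  refine ⟨⟨?_, ?_⟩, ?_⟩
  · intro v
    rcases v with (i | q | x) | (q | r' | x) <;> simp [g3]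
  · intro v
    rcases v with u | (q | r' | x)
    · have := inl_ge (g3 : Vx s → ℕ) u
      omega
    · have h1 := n_y (g3 : Vx s → ℕ) q
      have h2 := hcR q.1
      have h3 := hP q
      have h4 := hT0 q.1
      omega
    · have h1 := n_t (g3 : Vx s → ℕ) r'
      have h2 := hcT r'
      have h3 := hBr r'
      have h4 := hT0 r'
      omega
    · have h1 := n_w (g3 : Vx s → ℕ)
      have hx : x = () := rfl
      rw [hx]
      omega
  · intro v hv
    rcases v with (i | q | x) | (q | r' | x)
    · have : ∃ r : Fin 10, m r i = false := by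
        revert i
        have : ∀ i : Fin 5, ∃ r : Fin 10, m r i = false := by decide
        intro i _
        exact this i
      obtain ⟨r, hr⟩ := this
      refine ⟨.inr (.inr (.inl r)), Or.inr ?_, ?_⟩
      · simp [Gr, E, hr]
      · have h1 := n_t (g3 : Vx s → ℕ) r
        have h2 := hcT r
        have h3 := hBr r
        have h4 := hT0 r
        omega
    · refine ⟨.inr (.inl q), Or.inr ?_, ?_⟩
      · simp [Gr, E]
      · have h1 := n_y (g3 : Vx s → ℕ) q
        have h2 := hcR q.1
        have h3 := hP q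
        have h4 := hT0 q.1
        omega
    · simp [g3] at hv
    · simp [g3] at hv
    · simp [g3] at hv
    · simp [g3] at hv

/-- For every `N` there is a finite graph `G` with `Γ_4(G) + N ≤ Γ_3(G)`. -/
theorem result : ∀ N : ℕ, ∃ (V : Type) (_ : Fintype V) (_ : Nonempty V) (G : SimpleGraph V),
    upperK G 4 + N ≤ upperK G 3 := by
  intro N
  refine ⟨Vx (N + 20), inferInstance, ⟨.inl (.inl 0)⟩, Gr (N + 20), ?_⟩
  have h1 : upperK (Gr (N + 20)) 4 ≤ 8 * (N + 20) + 27 :=
    upperK_le _ _ _ (fun g hg => total_le g hg (by omega))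
  have h2 := le_upperK (Gr (N + 20)) 3 g3 (g3_min (N + 20) (by omega))
  rw [g3_total] at h2
  omega

end Pool.Agent.Results.MP_92077f_co.Drop
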